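import Mathlib

namespace Pool.Agent.Results.MP_cc6d20_al.SemiSep

universe u

/-- Terms in the two binary operations: `ld s t` is `s \ t` and `rd s t` is `s / t`. -/
inductive Tm : Type
  | var : ℕ → Tm
  | ld : Tm → Tm → Tm
  | rd : Tm → Tm → Tm

/-- Value of a term in the bimagma `(S, l, r)` under the assignment `v`. -/
def Tm.eval {S : Type u} (l r : S → S → S) (v : ℕ → S) : Tm → S
  | .var n => v n
  | .ld s t => l (s.eval l r v) (t.eval l r v)
  | .rd s t => r (s.eval l r v) (t.eval l r v)

/-- The operation `\` occurs in the term. -/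
def Tm.HasL : Tm → Prop
  | .var _ => False
  | .ld _ _ => True
  | .rd s t => s.HasL ∨ t.HasL

/-- The operation `/` occurs in the term. -/
def Tm.HasR : Tm → Prop
  | .var _ => False
  | .ld s t => s.HasR ∨ t.HasR
  | .rd _ _ => True

/-- Both operations occur in the identity `e.1 = e.2`. -/
def Mixed (e : Tm × Tm) : Prop := (e.1.HasL ∨ e.2.HasL) ∧ (e.1.HasR ∨ e.2.HasR)

/-- The bimagma `(S, l, r)` satisfies the identity `e.1 = e.2`. -/
def Sat {S : Type u} (l r : S → S → S) (e : Tm × Tm) : Prop :=
  ∀ v : ℕ → S, e.1.eval l r v = e.2.eval l r v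

/-- `(S, l, r)` is the division bimagma of an inverse semigroup `(S, m, i)`. -/
def IsDiv {S : Type u} (l r : S → S → S) : Prop :=
  ∃ (m : S → S → S) (i : S → S), (∀ x y z, m (m x y) z = m x (m y z)) ∧
    (∀ x y, (m (m x y) x = x ∧ m (m y x) y = y) ↔ y = i x) ∧
    (∀ x y, l x y = m (i x) y) ∧ (∀ x y, r x y = m x (i y))

section Inv

variable {S : Type u} [Semigroup S] (i : S → S)
  (h : ∀ x y : S, (x * y * x = x ∧ y * x * y = y) ↔ y = i x)
include h

lemma h1 (x : S) : x * i x * x = x := ((h x (i x)).2 rfl).1
lemma h2 (x : S) : i x * x * i x = i x := ((h x (i x)).2 rfl).2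
lemma ii (x : S) : i (i x) = x := ((h (i x) x).1 ⟨h2 i h x, h1 i h x⟩).symm
lemma ie {e : S} (he : e * e = e) : i e = e := ((h e e).1 ⟨by rw [he, he], by rw [he, he]⟩).symm

lemma idem_mul {e f : S} (he : e * e = e) (hf : f * f = f) : e * f * (e * f) = e * f := by
  set x := i (e * f) with hx
  have a1 : e * f * x * (e * f) = e * f := h1 i h _
  have a2 : x * (e * f) * x = x := h2 i h _
  have he' : ∀ z, e * (e * z) = e * z := fun z => by rw [← mul_assoc, he]
  have hf' : ∀ z, f * (f * z) = f * z := fun z => by rw [← mul_assoc, hf]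
  have a2' : ∀ z, x * (e * (f * (x * z))) = x * z := fun z => by
    conv_rhs => rw [← a2]
    simp only [mul_assoc]
  have b : f * x * e = x := by
    apply (h (e * f) _).1
    constructor
    · simp only [mul_assoc, he', hf'] at a1 ⊢
      exact a1
    · simp only [mul_assoc, he', hf', a2']
  have c : x * x = x := by
    calc x * x = f * x * e * (f * x * e) := by rw [b]
      _ = f * x * e := by simp only [mul_assoc, a2']
      _ = x := b
  have d : e * f = x := by
    have := ie i h c
    rw [hx, ii i h] at this
    exact this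
  rw [d, c]

lemma idem_comm {e f : S} (he : e * e = e) (hf : f * f = f) : e * f = f * e := by
  have a := idem_mul i h he hf
  have b := idem_mul i h hf he
  have he' : ∀ z, e * (e * z) = e * z := fun z => by rw [← mul_assoc, he]
  have hf' : ∀ z, f * (f * z) = f * z := fun z => by rw [← mul_assoc, hf]
  have c : f * e = i (e * f) := by
    apply (h (e * f) _).1
    constructor
    · simp only [mul_assoc, he', hf'] at a ⊢
      exact a
    · simp only [mul_assoc, he', hf'] at b ⊢
      exact b
  rw [c, ie i h a]

lemma e1 (x : S) : x * i x * (x * i x) = x * i x := by rw [← mul_assoc, h1 i h]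
lemma e2 (x : S) : i x * x * (i x * x) = i x * x := by rw [← mul_assoc, h2 i h]

lemma imul (x y : S) : i (x * y) = i y * i x := by
  symm
  apply (h (x * y) _).1
  have c := idem_comm i h (e1 i h y) (e2 i h x)
  constructor
  · calc x * y * (i y * i x) * (x * y) = x * (y * i y * (i x * x)) * y := by
          simp only [mul_assoc]
      _ = x * i x * x * (y * i y * y) := by rw [c]; simp only [mul_assoc]
      _ = x * y := by rw [h1 i h, h1 i h]
  · calc i y * i x * (x * y) * (i y * i x) = i y * (i x * x * (y * i y)) * i x := by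
          simp only [mul_assoc]
      _ = i y * y * i y * (i x * x * i x) := by rw [← c]; simp only [mul_assoc]
      _ = i y * i x := by rw [h2 i h, h2 i h]

end Inv

lemma uniq {S : Type u} [Semigroup S] (i : S → S) (hii : ∀ x, i (i x) = x)
    (him : ∀ x y, i (x * y) = i y * i x) (hr : ∀ x, x * i x * x = x)
    (hc : ∀ x y, x * i x * (y * i y) = y * i y * (x * i x)) (x y : S) :
    (x * y * x = x ∧ y * x * y = y) ↔ y = i x := by
  have hr' : ∀ x, i x * x * i x = i x := fun x => by
    have := hr (i x)
    rwa [hii] at this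
  have key : ∀ e : S, e * e = e → e * i e = e := fun e he => by
    have hie : i e * i e = i e := by rw [← him, he]
    have c := hc e (i e)
    rw [hii] at c
    have : e = i e := by
      calc e = e * i e * e := (hr e).symm
        _ = e * (i e * i e) * e := by rw [hie]
        _ = e * i e * (i e * e) := by simp only [mul_assoc]
        _ = i e * (e * e) * i e := by rw [c]; simp only [mul_assoc]
        _ = i e := by rw [he, hr']
    rw [← this, he]
  have comm : ∀ e f : S, e * e = e → f * f = f → e * f = f * e := fun e f he hf => by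
    have := hc e f
    rwa [key e he, key f hf] at this
  constructor
  · rintro ⟨p, q⟩
    have i1 : y * x * (y * x) = y * x := by rw [← mul_assoc, q]
    have i2 : x * y * (x * y) = x * y := by rw [← mul_assoc, p]
    have i3 : i x * x * (i x * x) = i x * x := by rw [← mul_assoc, hr']
    have i4 : x * i x * (x * i x) = x * i x := by rw [← mul_assoc, hr]
    have c1 := comm _ _ i1 i3
    have c2 := comm _ _ i2 i4
    have s1 : y * x = i x * x := by
      calc y * x = y * (x * i x * x) := by rw [hr]
        _ = y * x * (i x * x) := by simp only [mul_assoc]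
        _ = i x * (x * y * x) := by rw [c1]; simp only [mul_assoc]
        _ = i x * x := by rw [p]
    have s2 : x * y = x * i x := by
      calc x * y = x * i x * x * y := by rw [hr]
        _ = x * i x * (x * y) := by simp only [mul_assoc]
        _ = x * y * x * i x := by rw [← c2]; simp only [mul_assoc]
        _ = x * i x := by rw [p]
    calc y = y * x * y := q.symm
      _ = i x * (x * y) := by rw [s1, mul_assoc]
      _ = i x := by rw [s2, ← mul_assoc, hr']
  · rintro rfl
    exact ⟨hr x, hr' x⟩

open Tm in
def m1 : Tm × Tm := (var 0, rd (var 0) (ld (var 0) (var 0)))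
open Tm in
def m2 : Tm × Tm := (ld (rd (var 0) (var 1)) (rd (var 2) (var 3)),
  rd (rd (var 1) (var 0)) (rd (var 3) (var 2)))
open Tm in
def p1 : Tm × Tm := (rd (rd (var 1) (var 0)) (rd (rd (var 0) (var 1)) (rd (var 0) (var 1))),
  rd (var 1) (var 0))
open Tm in
def p2 : Tm × Tm := (rd (rd (var 0) (rd (var 1) (var 2))) (var 3),
  rd (var 0) (rd (var 3) (rd (var 2) (var 1))))
open Tm in
def p3 : Tm × Tm := (rd (rd (rd (var 0) (var 1)) (rd (var 0) (var 1))) (rd (var 1) (var 0)),
  rd (var 0) (var 1))
open Tm in
def p4 : Tm × Tm := (rd (rd (var 0) (var 0)) (rd (var 1) (var 1)),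
  rd (rd (var 1) (var 1)) (rd (var 0) (var 0)))

def vv {S : Type u} (a b c d : S) : ℕ → S
  | 0 => a
  | 1 => b
  | 2 => c
  | _ => d

theorem result : ∃ A : Set (Tm × Tm), A.Finite ∧ {e ∈ A | Mixed e}.encard ≤ 2 ∧
    ∀ (S : Type u) (l r : S → S → S), (∀ e ∈ A, Sat l r e) ↔ IsDiv l r := by
  refine ⟨{m1, m2, p1, p2, p3, p4}, Set.toFinite _, ?_, ?_⟩
  · have : {e ∈ ({m1, m2, p1, p2, p3, p4} : Set (Tm × Tm)) | Mixed e} ⊆ {m1, m2} := by
      rintro e ⟨he, hm⟩
      simp only [Set.mem_insert_iff, Set.mem_singleton_iff] at he ⊢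
      rcases he with rfl | rfl | rfl | rfl | rfl | rfl
      · exact Or.inl rfl
      · exact Or.inr rfl
      all_goals simp [Mixed, p1, p2, p3, p4, Tm.HasL] at hm
    refine (Set.encard_le_encard this).trans ((Set.encard_insert_le _ _).trans ?_)
    rw [Set.encard_singleton]
    exact le_of_eq (by norm_num)
  · intro S l r
    constructor
    · intro H
      have M1 : ∀ x, x = r x (l x x) := fun x => H m1 (by simp) (vv x x x x)
      have M2 : ∀ a b c d, l (r a b) (r c d) = r (r b a) (r d c) :=
        fun a b c d => H m2 (by simp) (vv a b c d)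
      have P1 : ∀ a b, r (r b a) (r (r a b) (r a b)) = r b a :=
        fun a b => H p1 (by simp) (vv a b a a)
      have P2 : ∀ a b c d, r (r a (r b c)) d = r a (r d (r c b)) :=
        fun a b c d => H p2 (by simp) (vv a b c d)
      have P3 : ∀ a b, r (r (r a b) (r a b)) (r b a) = r a b :=
        fun a b => H p3 (by simp) (vv a b a a)
      have P4 : ∀ a b, r (r a a) (r b b) = r (r b b) (r a a) :=
        fun a b => H p4 (by simp) (vv a b a a)
      have sur : ∀ x, ∃ a b, x = r a b := fun x => ⟨x, _, M1 x⟩
      let i : S → S := fun x => l x (r x x)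
      have T4 : ∀ a b, i (r a b) = r b a := fun a b => by
        show l (r a b) (r (r a b) (r a b)) = r b a
        rw [M2, P1]
      have hii : ∀ x, i (i x) = x := fun x => by
        obtain ⟨a, b, rfl⟩ := sur x
        rw [T4, T4]
      have asc : ∀ x y z, r (r x (i y)) (i z) = r x (i (r y (i z))) := fun x y z => by
        obtain ⟨a, b, rfl⟩ := sur y
        rw [T4, T4, P2]
      letI : Semigroup S := { mul := fun x y => r x (i y), mul_assoc := asc }
      have hm : ∀ x y : S, x * y = r x (i y) := fun _ _ => rfl
      refine ⟨fun x y => x * y, i, mul_assoc, uniq i hii ?_ ?_ ?_, ?_, ?_⟩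
      · intro x y
        rw [hm, hm, T4, hii]
      · intro x
        obtain ⟨a, b, rfl⟩ := sur x
        rw [hm, hm, hii, T4, P3]
      · intro x y
        simp only [hm, hii, T4]
        exact P4 x y
      · intro x y
        obtain ⟨a, b, rfl⟩ := sur x
        obtain ⟨c, d, rfl⟩ := sur y
        show _ = r _ _
        rw [T4, T4, M2]
      · intro x y
        show _ = r _ _
        rw [hii]
    · rintro ⟨m, i, asc, h, hl, hr⟩
      letI : Semigroup S := { mul := m, mul_assoc := asc }
      have h' : ∀ x y : S, (x * y * x = x ∧ y * x * y = y) ↔ y = i x := h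
      have hl' : ∀ x y : S, l x y = i x * y := hl
      have hr' : ∀ x y : S, r x y = x * i y := hr
      intro e he v
      simp only [Set.mem_insert_iff, Set.mem_singleton_iff] at he
      rcases he with rfl | rfl | rfl | rfl | rfl | rfl
      · simp only [m1, Tm.eval, hl', hr', imul i h', ii i h']
        rw [← mul_assoc, h1 i h']
      · simp only [m2, Tm.eval, hl', hr', imul i h', ii i h']
      · simp only [p1, Tm.eval, hr']
        have := h2 i h' (v 0 * i (v 1))
        simp only [imul i h', ii i h', mul_assoc] at this ⊢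
        exact this
      · simp only [p2, Tm.eval, hr', imul i h', ii i h', mul_assoc]
      · simp only [p3, Tm.eval, hr']
        have := h1 i h' (v 0 * i (v 1))
        simp only [imul i h', ii i h', mul_assoc] at this ⊢
        exact this
      · simp only [p4, Tm.eval, hr', imul i h', ii i h']
        exact idem_comm i h' (e1 i h' _) (e1 i h' _)

end Pool.Agent.Results.MP_cc6d20_al.SemiSep
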